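import Mathlib

set_option autoImplicit false

namespace Pool.Agent.Results.MP_e4445d_al.BidualWeight

open Cardinal Topology Set Metric

universe u

/-- The circle group `ℝ/ℤ`; its norm `‖t‖` is the distance of `t` to the nearest integer. -/
abbrev T := UnitAddCircle

section Defs

variable (G : Type u) [NormedAddCommGroup G]

/-- The continuous homomorphisms from `G` to the circle. -/
def chars : AddSubgroup (G →+ T) where
  carrier := {f | Continuous f}
  zero_mem' := continuous_const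
  add_mem' := fun {a b} ha hb => by
    have h1 : Continuous a := ha
    have h2 : Continuous b := hb
    exact h1.add h2
  neg_mem' := fun {a} ha => by
    have h1 : Continuous a := ha
    exact h1.neg

/-- The dual group `G'` of all continuous homomorphisms `G → ℝ/ℤ`. -/
def Dual : Type u := chars G

instance : AddCommGroup (Dual G) := inferInstanceAs (AddCommGroup (chars G))

end Defs

variable {G : Type u} [NormedAddCommGroup G]

/-- The dual norm `p'(χ) = inf {M > 0 : λ(χ(x)) ≤ M p(x) for all x}`. -/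
noncomputable def dnorm (χ : Dual G) : ℝ := sInf {M : ℝ | 0 < M ∧ ∀ x : G, ‖χ.1 x‖ ≤ M * ‖x‖}

lemma rep (y : T) : ∃ t : ℝ, |t| ≤ 1 / 2 ∧ (t : T) = y := by
  obtain ⟨x, rfl⟩ := QuotientAddGroup.mk_surjective y
  refine ⟨x - round x, abs_sub_round x, ?_⟩
  have h : (((round x : ℤ) : ℝ) : T) = 0 := by
    rw [AddCircle.coe_eq_zero_iff]
    exact ⟨round x, by simp⟩
  have h2 : ((x - round x : ℝ) : T) = (x : T) - (((round x : ℤ) : ℝ) : T) := rfl
  rw [h2, h, sub_zero]

lemma norm_coe {t : ℝ} (ht : |t| ≤ 1 / 2) : ‖(t : T)‖ = |t| :=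
  (AddCircle.norm_coe_eq_abs_iff (1 : ℝ) one_ne_zero).2 (by simpa using ht)

lemma norm_half (y : T) : ‖y‖ ≤ 1 / 2 := by
  simpa using AddCircle.norm_le_half_period (1 : ℝ) (x := y) one_ne_zero

lemma circle_mul (y : T) (n : ℕ) (η : ℝ) (hη : η ≤ 1 / 4) (h : ∀ k ≤ n, ‖k • y‖ ≤ η) :
    (n : ℝ) * ‖y‖ ≤ η := by
  obtain ⟨t, ht, rfl⟩ := rep y
  rw [norm_coe ht]
  have key : ∀ k ≤ n, (k : ℝ) * |t| ≤ η := by
    intro k
    induction k with
    | zero => intro hk; simpa using (by simpa using h 0 hk : (0 : ℝ) ≤ η)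
    | succ k ih =>
      intro hk
      have h1 := ih (by omega)
      have h2 : ((k + 1 : ℕ) : ℝ) * |t| ≤ 1 / 2 := by
        rcases Nat.eq_zero_or_pos k with h0 | h0
        · subst h0; simpa using ht
        · have h3 : (1 : ℝ) ≤ k := by exact_mod_cast h0
          have h4 : |t| ≤ k * |t| := by nlinarith [abs_nonneg t]
          push_cast
          nlinarith
      have h3 : |((k + 1 : ℕ) : ℝ) * t| = ((k + 1 : ℕ) : ℝ) * |t| := by
        rw [abs_mul, Nat.abs_cast]
      have h4 : ‖((((k + 1 : ℕ) : ℝ) * t : ℝ) : T)‖ = ((k + 1 : ℕ) : ℝ) * |t| := by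
        rw [norm_coe (by rw [h3]; exact h2), h3]
      have h5 : ((((k + 1 : ℕ) : ℝ) * t : ℝ) : T) = (k + 1) • (t : T) := by
        rw [← nsmul_eq_mul]; rfl
      rw [← h4, h5]
      exact h (k + 1) hk
  exact key n le_rfl

lemma lip (ψ : G →+ T) {R : ℝ} (hR : 0 < R) (h : ∀ x, ‖x‖ ≤ R → ‖ψ x‖ ≤ 1 / 5) (x : G) :
    ‖ψ x‖ ≤ 1 / (2 * R) * ‖x‖ := by
  by_cases hx : ‖x‖ ≤ R
  · rcases eq_or_lt_of_le (norm_nonneg x) with h0 | h0
    · have : x = 0 := norm_eq_zero.1 h0.symm
      subst this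
      simp
    · set n := ⌊R / ‖x‖⌋₊ with hn
      have hn1 : 1 ≤ n := by
        rw [hn, Nat.one_le_floor_iff]
        rw [le_div_iff₀ h0, one_mul]; exact hx
      have hn2 : (n : ℝ) * ‖x‖ ≤ R := by
        have : (n : ℝ) ≤ R / ‖x‖ := Nat.floor_le (by positivity)
        rwa [le_div_iff₀ h0] at this
      have hn3 : R < (n + 1) * ‖x‖ := by
        have : R / ‖x‖ < n + 1 := Nat.lt_floor_add_one _
        rwa [div_lt_iff₀ h0] at this
      have h1 : (n : ℝ) * ‖ψ x‖ ≤ 1 / 5 := by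
        apply circle_mul _ _ _ (by norm_num)
        intro k hk
        rw [← map_nsmul]
        apply h
        refine (norm_nsmul_le).trans ?_
        have : (k : ℝ) ≤ n := by exact_mod_cast hk
        nlinarith
      have hn1' : (1 : ℝ) ≤ n := by exact_mod_cast hn1
      have hRn : R ≤ 2 * n * ‖x‖ := by nlinarith
      have h2 : R * ‖ψ x‖ ≤ 2 * n * ‖x‖ * ‖ψ x‖ :=
        mul_le_mul_of_nonneg_right hRn (norm_nonneg (ψ x))
      have h2' : 2 * n * ‖x‖ * ‖ψ x‖ = 2 * ‖x‖ * (n * ‖ψ x‖) := by ring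
      have h2'' : 2 * ‖x‖ * (n * ‖ψ x‖) ≤ 2 * ‖x‖ * (1 / 5) :=
        mul_le_mul_of_nonneg_left h1 (by positivity)
      have h3 : 2 * R * ‖ψ x‖ ≤ ‖x‖ := by nlinarith
      rw [div_mul_eq_mul_div, one_mul, le_div_iff₀ (by positivity)]
      linarith
  · push Not at hx
    have h1 := norm_half (ψ x)
    rw [div_mul_eq_mul_div, one_mul, le_div_iff₀ (by positivity)]
    nlinarith

lemma exists_bound (χ : Dual G) : ∃ M : ℝ, 0 < M ∧ ∀ x : G, ‖χ.1 x‖ ≤ M * ‖x‖ := by
  have hc : Continuous χ.1 := χ.2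
  rw [Metric.continuous_iff] at hc
  obtain ⟨δ, hδ, h⟩ := hc 0 (1 / 5) (by norm_num)
  refine ⟨1 / (2 * (δ / 2)), by positivity, lip χ.1 (by positivity) ?_⟩
  intro x hx
  have := h x (by rw [dist_zero_right]; linarith)
  rw [map_zero, dist_zero_right] at this
  exact this.le

lemma dnorm_bdd (χ : Dual G) : BddBelow {M : ℝ | 0 < M ∧ ∀ x : G, ‖χ.1 x‖ ≤ M * ‖x‖} :=
  ⟨0, fun _ h => h.1.le⟩

lemma dnorm_nonneg (χ : Dual G) : 0 ≤ dnorm χ := Real.sInf_nonneg (fun _ h => h.1.le)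

lemma le_dnorm (χ : Dual G) (x : G) : ‖χ.1 x‖ ≤ dnorm χ * ‖x‖ := by
  rcases eq_or_lt_of_le (norm_nonneg x) with h0 | h0
  · have : x = 0 := norm_eq_zero.1 h0.symm
    subst this
    simp
  · rw [← div_le_iff₀ h0]
    obtain ⟨M, hM⟩ := exists_bound χ
    apply le_csInf ⟨M, hM⟩
    rintro M' ⟨_, h⟩
    rw [div_le_iff₀ h0]
    exact h x

lemma dnorm_le (χ : Dual G) {M : ℝ} (hM : 0 ≤ M) (h : ∀ x : G, ‖χ.1 x‖ ≤ M * ‖x‖) :
    dnorm χ ≤ M := by
  apply le_of_forall_pos_le_add
  intro ε hε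
  apply csInf_le (dnorm_bdd χ)
  refine ⟨by positivity, fun x => (h x).trans ?_⟩
  have := norm_nonneg x
  nlinarith

/-- The dual norm as a group norm. -/
noncomputable def dualNorm (G : Type u) [NormedAddCommGroup G] : AddGroupNorm (Dual G) where
  toFun := dnorm
  map_zero' := by
    apply le_antisymm _ (dnorm_nonneg _)
    apply dnorm_le _ le_rfl
    intro x
    have : (0 : Dual G).1 x = 0 := rfl
    simp [this]
  add_le' := by
    intro a b
    apply dnorm_le _ (add_nonneg (dnorm_nonneg a) (dnorm_nonneg b))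
    intro x
    have : (a + b).1 x = a.1 x + b.1 x := rfl
    rw [this, add_mul]
    exact (norm_add_le _ _).trans (add_le_add (le_dnorm a x) (le_dnorm b x))
  neg' := by
    intro a
    unfold dnorm
    congr 1
    ext M
    have : ∀ x, (-a).1 x = - a.1 x := fun x => rfl
    simp [this]
  eq_zero_of_map_eq_zero' := by
    intro a ha
    apply Subtype.ext
    ext x
    have := le_dnorm a x
    change dnorm a = 0 at ha
    rw [ha, zero_mul] at this
    have h2 : a.1 x = 0 := norm_le_zero_iff.1 this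
    rw [h2]
    rfl

/-- `G'` with the dual norm and its topology. -/
noncomputable instance : NormedAddCommGroup (Dual G) :=
  AddGroupNorm.toNormedAddCommGroup (dualNorm G)

lemma norm_def (χ : Dual G) : ‖χ‖ = dnorm χ := rfl

/-- The topological weight: the least cardinality of a base. -/
noncomputable def weight (X : Type u) [TopologicalSpace X] : Cardinal.{u} :=
  sInf {c : Cardinal.{u} | ∃ B : Set (Set X), TopologicalSpace.IsTopologicalBasis B ∧ #B = c}

/-- Evaluation. -/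
def ev (x : G) : Dual G → T := fun χ => χ.1 x

/-- Pointwise compact model of the ball of radius `R` of the bidual. -/
def K (G : Type u) [NormedAddCommGroup G] (R : ℝ) : Set (Dual G → T) :=
  {f | (∀ χ ψ, f (χ + ψ) = f χ + f ψ) ∧ ∀ χ, ‖f χ‖ ≤ R * ‖χ‖}

lemma K_compact (R : ℝ) : IsCompact (K G R) := by
  apply IsClosed.isCompact
  have h1 : IsClosed {f : Dual G → T | ∀ χ ψ, f (χ + ψ) = f χ + f ψ} := by
    simp only [ofPred_forall]
    refine isClosed_iInter fun χ => isClosed_iInter fun ψ => ?_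
    have c1 : Continuous (fun f : Dual G → T => f (χ + ψ)) := continuous_apply _
    have c2 : Continuous (fun f : Dual G → T => f χ) := continuous_apply _
    have c3 : Continuous (fun f : Dual G → T => f ψ) := continuous_apply _
    exact isClosed_eq c1 (c2.add c3)
  have h2 : IsClosed {f : Dual G → T | ∀ χ, ‖f χ‖ ≤ R * ‖χ‖} := by
    simp only [ofPred_forall]
    exact isClosed_iInter fun χ => isClosed_le ((continuous_apply _).norm) continuous_const
  exact h1.inter h2

lemma ev_mem {x : G} {R : ℝ} (hx : ‖x‖ ≤ R) : ev x ∈ K G R := by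
  refine ⟨fun χ ψ => rfl, fun χ => ?_⟩
  have := le_dnorm χ x
  have h2 : 0 ≤ ‖χ‖ := norm_nonneg χ
  rw [← norm_def] at this
  calc ‖χ.1 x‖ ≤ ‖χ‖ * ‖x‖ := this
    _ ≤ R * ‖χ‖ := by nlinarith

/-- Elements of `K` are elements of the bidual. -/
def ofK {R : ℝ} (f : Dual G → T) (hf : f ∈ K G R) : Dual (Dual G) :=
  ⟨AddMonoidHom.mk' f hf.1,
    AddMonoidHomClass.continuous_of_bound (AddMonoidHom.mk' f hf.1) R hf.2⟩

lemma sub_mem {R S : ℝ} {f g : Dual G → T} (hf : f ∈ K G R) (hg : g ∈ K G S) :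
    (f - g) ∈ K G (R + S) := by
  refine ⟨fun χ ψ => ?_, fun χ => ?_⟩
  · simp only [Pi.sub_apply, hf.1, hg.1]; abel
  · simp only [Pi.sub_apply]
    refine (norm_sub_le _ _).trans ?_
    rw [add_mul]
    exact add_le_add (hf.2 χ) (hg.2 χ)

/-- A small set of characters separating the bidual from `0`. -/
lemma exists_sep (B : Set (Set (Dual (Dual G)))) (hB : TopologicalSpace.IsTopologicalBasis B) :
    ∃ c : B → Dual G, ∀ Ξ : Dual (Dual G), Ξ ≠ 0 → ∃ U : B, Ξ.1 (c U) ≠ 0 := by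
  classical
  let c : B → Dual G := fun U =>
    if h : ∃ χ : Dual G, ∀ Ξ ∈ (U : Set (Dual (Dual G))), Ξ.1 χ ≠ 0 then h.choose else 0
  refine ⟨c, fun Ξ hΞ => ?_⟩
  have h1 : ∃ χ, Ξ.1 χ ≠ 0 := by
    by_contra hcon
    push Not at hcon
    apply hΞ
    apply Subtype.ext
    ext χ
    rw [hcon χ]
    rfl
  obtain ⟨χ, hχ⟩ := h1
  have hcont : Continuous (fun Ξ : Dual (Dual G) => Ξ.1 χ) := by
    let e : Dual (Dual G) →+ T :=
      { toFun := fun Ξ => Ξ.1 χ
        map_zero' := rfl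
        map_add' := fun _ _ => rfl }
    refine AddMonoidHomClass.continuous_of_bound e ‖χ‖ (fun Ξ => ?_)
    have := le_dnorm Ξ χ
    rw [← norm_def, mul_comm] at this
    exact this
  have hopen : IsOpen {Ξ : Dual (Dual G) | Ξ.1 χ ≠ 0} := isOpen_ne_fun hcont continuous_const
  obtain ⟨U, hU, hΞU, hUs⟩ := hB.exists_subset_of_mem_open (show Ξ ∈ {Ξ : Dual (Dual G) | Ξ.1 χ ≠ 0} from hχ) hopen
  refine ⟨⟨U, hU⟩, ?_⟩
  have hex : ∃ χ : Dual G, ∀ Ξ ∈ ((⟨U, hU⟩ : B) : Set (Dual (Dual G))), Ξ.1 χ ≠ 0 :=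
    ⟨χ, fun Ξ' h' => hUs h'⟩
  have : c ⟨U, hU⟩ = hex.choose := dif_pos hex
  rw [this]
  exact hex.choose_spec Ξ hΞU

/-- Uniform control of a character by finitely many separating ones. -/
lemma control {ι : Type*} (c : ι → Dual G)
    (hc : ∀ Ξ : Dual (Dual G), Ξ ≠ 0 → ∃ i, Ξ.1 (c i) ≠ 0) (χ : Dual G) (R : ℝ) {ε : ℝ}
    (hε : 0 < ε) :
    ∃ (F : Finset ι) (n : ℕ), ∀ f ∈ K G R, (∀ i ∈ F, ‖f (c i)‖ < 1 / ((n : ℝ) + 1)) → ‖f χ‖ < ε := by
  classical
  let S : Set (Dual G → T) := K G R ∩ {f | ε ≤ ‖f χ‖}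
  have hS : IsCompact S :=
    (K_compact R).inter_right (isClosed_le continuous_const ((continuous_apply _).norm))
  let O : ι × ℕ → Set (Dual G → T) := fun q => {f | 1 / ((q.2 : ℝ) + 1) < ‖f (c q.1)‖}
  have hO : ∀ q, IsOpen (O q) := fun q =>
    isOpen_lt continuous_const ((continuous_apply _).norm)
  have hcov : S ⊆ ⋃ q, O q := by
    rintro f ⟨hf, hf2⟩
    have hne : ofK f hf ≠ 0 := by
      intro h0
      have : f χ = 0 := by
        have := congrArg (fun Ξ : Dual (Dual G) => Ξ.1 χ) h0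
        exact this
      change ε ≤ ‖f χ‖ at hf2
      rw [this, norm_zero] at hf2
      linarith
    obtain ⟨i, hi⟩ := hc _ hne
    have hi' : f (c i) ≠ 0 := hi
    obtain ⟨n, hn⟩ := exists_nat_one_div_lt (norm_pos_iff.2 hi')
    exact mem_iUnion.2 ⟨(i, n), hn⟩
  obtain ⟨t, ht⟩ := hS.elim_finite_subcover O hO hcov
  refine ⟨t.image Prod.fst, t.sup Prod.snd, fun f hf hF => ?_⟩
  by_contra hcon
  push Not at hcon
  have hmem : f ∈ S := ⟨hf, hcon⟩
  obtain ⟨q, hq, hq2⟩ := mem_iUnion₂.1 (ht hmem)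
  have h1 := hF q.1 (Finset.mem_image_of_mem _ hq)
  have h2 : q.2 ≤ t.sup Prod.snd := Finset.le_sup (f := Prod.snd) hq
  have h3 : 1 / ((t.sup Prod.snd : ℕ) + 1 : ℝ) ≤ 1 / ((q.2 : ℝ) + 1) := by
    apply one_div_le_one_div_of_le (by positivity)
    have : (q.2 : ℝ) ≤ (t.sup Prod.snd : ℕ) := by exact_mod_cast h2
    linarith
  have h4 : 1 / ((q.2 : ℝ) + 1) < ‖f (c q.1)‖ := hq2
  linarith

/-- Finite nets for the characters with a given modulus of control. -/
lemma net {ι : Type*} (c : ι → Dual G) (F : Finset ι) (n : ℕ) (R : ℝ) :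
    ∃ N : Set (Dual G), N.Finite ∧ ∀ χ : Dual G,
      (∀ f ∈ K G (R + R), (∀ i ∈ F, ‖f (c i)‖ < 1 / ((n : ℝ) + 1)) → ‖f χ‖ < 1 / 20) →
      ∃ ψ ∈ N, ∀ f ∈ K G R, ‖f χ - f ψ‖ ≤ 1 / 5 := by
  classical
  let O : (Dual G → T) → Set (Dual G → T) := fun g =>
    {f | ∀ i ∈ F, ‖f (c i) - g (c i)‖ < 1 / ((n : ℝ) + 1)}
  have hO : ∀ g, IsOpen (O g) := by
    intro g
    have : O g = ⋂ i ∈ F, {f | ‖f (c i) - g (c i)‖ < 1 / ((n : ℝ) + 1)} := by
      ext f; simp [O]
    rw [this]
    exact isOpen_biInter_finset fun i _ =>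
      isOpen_lt (((continuous_apply _).sub continuous_const).norm) continuous_const
  have hcov : K G R ⊆ ⋃ g : K G R, O g := by
    intro f hf
    refine mem_iUnion.2 ⟨⟨f, hf⟩, ?_⟩
    intro i _
    simp only [sub_self, norm_zero]
    positivity
  obtain ⟨t, ht⟩ := (K_compact R).elim_finite_subcover (fun g : K G R => O g) (fun g => hO g) hcov
  -- finite net of the torus
  have hcomp : IsCompact (univ : Set (t → T)) := isCompact_univ
  obtain ⟨Z, -, hZf, hZ⟩ := hcomp.finite_cover_balls (e := (1 / 40 : ℝ)) (by norm_num)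
  let vec : Dual G → (t → T) := fun χ g => (g.1 : Dual G → T) χ
  let P : Dual G → Prop := fun χ =>
    ∀ f ∈ K G (R + R), (∀ i ∈ F, ‖f (c i)‖ < 1 / ((n : ℝ) + 1)) → ‖f χ‖ < 1 / 20
  let pick : (t → T) → Dual G := fun z =>
    if h : ∃ χ, P χ ∧ vec χ ∈ ball z (1 / 40) then h.choose else 0
  refine ⟨pick '' Z, hZf.image _, fun χ hχ => ?_⟩
  have hPχ : P χ := hχ
  obtain ⟨z, hz, hzb⟩ := mem_iUnion₂.1 (hZ (mem_univ (vec χ)))
  have hex : ∃ χ, P χ ∧ vec χ ∈ ball z (1 / 40) := ⟨χ, hPχ, hzb⟩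
  have hpick : pick z = hex.choose := dif_pos hex
  obtain ⟨hP', hb'⟩ := hex.choose_spec
  rw [← hpick] at hP' hb'
  refine ⟨pick z, mem_image_of_mem _ hz, fun f hf => ?_⟩
  obtain ⟨g, hg, hfg⟩ := mem_iUnion₂.1 (ht hf)
  have hsub := sub_mem hf g.2
  have h1 := hPχ (f - g.1) hsub (fun i hi => by simpa using hfg i hi)
  have h2 := hP' (f - g.1) hsub (fun i hi => by simpa using hfg i hi)
  simp only [Pi.sub_apply] at h1 h2
  have h3 : dist (vec χ) (vec (pick z)) < 1 / 20 := by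
    have a1 : dist (vec χ) z < 1 / 40 := hzb
    have a2 : dist (vec (pick z)) z < 1 / 40 := hb'
    have := dist_triangle_right (vec χ) (vec (pick z)) z
    linarith
  have h4 : ‖g.1 χ - g.1 (pick z)‖ < 1 / 20 := by
    have := (dist_le_pi_dist (vec χ) (vec (pick z)) ⟨g, hg⟩).trans_lt h3
    rwa [dist_eq_norm] at this
  have h5 : f χ - f (pick z) = (f χ - g.1 χ) + (g.1 χ - g.1 (pick z)) - (f (pick z) - g.1 (pick z)) := by
    abel
  rw [h5]
  refine (norm_sub_le _ _).trans ?_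
  have := norm_add_le (f χ - g.1 χ) (g.1 χ - g.1 (pick z))
  linarith

/-- The main case: infinite weight. -/
lemma main_infinite (B : Set (Set (Dual (Dual G)))) (hB : TopologicalSpace.IsTopologicalBasis B)
    (hinf : ℵ₀ ≤ #B) :
    ∃ B' : Set (Set (Dual G)), TopologicalSpace.IsTopologicalBasis B' ∧ #B' ≤ #B := by
  classical
  obtain ⟨c, hc⟩ := exists_sep B hB
  choose N hNf hN using fun q : Finset B × ℕ × ℕ => net c q.1 q.2.1 ((q.2.2 : ℝ) + 1)
  let D : Set (Dual G) := ⋃ q, N q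
  have hidx : #(Finset B × ℕ × ℕ) ≤ #B := by
    have h1 : #(Finset B) = #B := by
      have : Infinite B := Cardinal.infinite_iff.2 hinf
      exact Cardinal.mk_finset_of_infinite B
    rw [Cardinal.mk_prod, Cardinal.mk_prod]
    simp only [Cardinal.lift_id, Cardinal.lift_uzero, Cardinal.mk_nat, h1]
    rw [Cardinal.aleph0_mul_aleph0, Cardinal.lift_aleph0]
    exact (Cardinal.mul_aleph0_eq hinf).le
  have hD : #D ≤ #B := by
    refine (Cardinal.mk_iUnion_le _).trans ?_
    have h2 : ⨆ q, #(N q) ≤ ℵ₀ := ciSup_le' (fun q => (hNf q).lt_aleph0.le)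
    calc #(Finset B × ℕ × ℕ) * ⨆ q, #(N q) ≤ #B * ℵ₀ := mul_le_mul' hidx h2
      _ = #B := Cardinal.mul_aleph0_eq hinf
  have hdense : ∀ (χ : Dual G) (m : ℕ), ∃ ψ ∈ D, dist χ ψ < 1 / ((m : ℝ) + 1) := by
    intro χ m
    obtain ⟨F, n, hF⟩ := control c hc χ (((m : ℝ) + 1) + ((m : ℝ) + 1)) (ε := 1 / 20) (by norm_num)
    obtain ⟨ψ, hψ, h⟩ := hN (F, n, m) χ hF
    refine ⟨ψ, mem_iUnion.2 ⟨_, hψ⟩, ?_⟩
    rw [dist_eq_norm, norm_def]
    have hm : (0 : ℝ) < (m : ℝ) + 1 := by positivity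
    have h1 : dnorm (χ - ψ) ≤ 1 / (2 * ((m : ℝ) + 1)) := by
      apply dnorm_le _ (by positivity)
      apply lip (χ - ψ).1 hm
      intro x hx
      exact h (ev x) (ev_mem hx)
    refine h1.trans_lt ?_
    apply one_div_lt_one_div_of_lt hm
    linarith
  refine ⟨range (fun q : D × ℕ => ball (q.1 : Dual G) (1 / ((q.2 : ℝ) + 1))), ?_, ?_⟩
  · apply TopologicalSpace.isTopologicalBasis_of_isOpen_of_nhds
    · rintro _ ⟨q, rfl⟩
      exact isOpen_ball
    · intro a U ha hU
      obtain ⟨ε, hε, hεU⟩ := Metric.isOpen_iff.1 hU a ha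
      obtain ⟨m, hm⟩ := exists_nat_one_div_lt (half_pos hε)
      obtain ⟨ψ, hψ, hd⟩ := hdense a m
      refine ⟨_, ⟨(⟨ψ, hψ⟩, m), rfl⟩, hd, fun y hy => hεU ?_⟩
      rw [mem_ball] at hy ⊢
      have := dist_triangle y ψ a
      rw [dist_comm ψ a] at this
      have hy' : dist y ψ < 1 / ((m : ℝ) + 1) := hy
      linarith
  · refine Cardinal.mk_range_le.trans ?_
    rw [Cardinal.mk_prod]
    simp only [Cardinal.lift_uzero, Cardinal.mk_nat, Cardinal.lift_aleph0]
    calc #D * ℵ₀ ≤ #B * ℵ₀ := mul_le_mul' hD le_rfl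
      _ = #B := Cardinal.mul_aleph0_eq hinf

/-- The finite case. -/
lemma main_finite (B : Set (Set (Dual (Dual G)))) (hB : TopologicalSpace.IsTopologicalBasis B)
    (hfin : B.Finite) :
    ∃ B' : Set (Set (Dual G)), TopologicalSpace.IsTopologicalBasis B' ∧ #B' ≤ #B := by
  classical
  -- singletons of the bidual are in `B`
  have hsing : ∀ Ξ : Dual (Dual G), {Ξ} ∈ B := by
    intro Ξ
    have hopen : IsOpen (⋂₀ {U ∈ B | Ξ ∈ U}) :=
      (hfin.subset (fun U hU => hU.1)).isOpen_sInter (fun U hU => hB.isOpen hU.1)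
    have heq : (⋂₀ {U ∈ B | Ξ ∈ U}) = {Ξ} := by
      apply Subset.antisymm
      · intro Θ hΘ
        by_contra hne
        have hne' : Ξ ≠ Θ := fun h => hne (by rw [h]; exact mem_singleton _)
        obtain ⟨U, hU, hΞU, hUs⟩ := hB.exists_subset_of_mem_open
          (show Ξ ∈ ({Θ}ᶜ : Set (Dual (Dual G))) from hne') isOpen_compl_singleton
        exact hUs (mem_sInter.1 hΘ U ⟨hU, hΞU⟩) rfl
      · rintro _ rfl
        exact mem_sInter.2 fun U hU => hU.2
    rw [heq] at hopen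
    obtain ⟨U, hU, hΞU, hUs⟩ := hB.exists_subset_of_mem_open (mem_singleton Ξ) hopen
    have : U = {Ξ} := Subset.antisymm hUs (singleton_subset_iff.2 hΞU)
    rwa [← this]
  let inj : Dual (Dual G) → B := fun Ξ => ⟨{Ξ}, hsing Ξ⟩
  have hinj : Function.Injective inj := by
    intro a b h
    have := congrArg Subtype.val h
    exact singleton_injective this
  have : Finite B := hfin
  have : Finite (Dual (Dual G)) := Finite.of_injective inj hinj
  letI : Fintype (Dual (Dual G)) := Fintype.ofFinite _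
  -- the dual embeds in the characters of the bidual
  let e : Dual G → AddChar (Dual (Dual G)) ℂ := fun χ =>
    { toFun := fun Ξ => (AddCircle.toCircle (Ξ.1 χ) : ℂ)
      map_zero_eq_one' := by
        have : (0 : Dual (Dual G)).1 χ = 0 := rfl
        simp [this]
      map_add_eq_mul' := by
        intro a b
        have : (a + b).1 χ = a.1 χ + b.1 χ := rfl
        rw [this, AddCircle.toCircle_add]
        simp }
  have he : Function.Injective e := by
    intro χ ψ h
    apply Subtype.ext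
    ext x
    let Ξ : Dual (Dual G) := ofK (ev x) (ev_mem le_rfl)
    have h1 : (AddCircle.toCircle (Ξ.1 χ) : ℂ) = (AddCircle.toCircle (Ξ.1 ψ) : ℂ) :=
      congrArg (fun a : AddChar (Dual (Dual G)) ℂ => a Ξ) h
    have h2 := AddCircle.injective_toCircle one_ne_zero (Subtype.ext h1)
    exact h2
  have : Finite (Dual G) := Finite.of_injective e he
  have hcard : #(Dual G) ≤ #B := by
    have h1 : #(Dual G) ≤ #(AddChar (Dual (Dual G)) ℂ) := Cardinal.mk_le_of_injective he
    have h2 : #(AddChar (Dual (Dual G)) ℂ) = #(Dual (Dual G)) := by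
      rw [Cardinal.mk_fintype, Cardinal.mk_fintype, AddChar.card_eq]
    rw [h2] at h1
    exact h1.trans (Cardinal.mk_le_of_injective hinj)
  refine ⟨range (fun χ : Dual G => ({χ} : Set (Dual G))), ?_, ?_⟩
  · have : DiscreteTopology (Dual G) := inferInstance
    apply TopologicalSpace.isTopologicalBasis_of_isOpen_of_nhds
    · rintro _ ⟨q, rfl⟩
      exact isOpen_discrete _
    · intro a U ha hU
      exact ⟨{a}, ⟨a, rfl⟩, mem_singleton a, singleton_subset_iff.2 ha⟩
  · exact Cardinal.mk_range_le.trans hcard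

/-- The norm of `ℝ/ℤ` is the norm `λ` of the unit circle, under `t ↦ e^{2πit}`. -/
lemma norm_is_lambda (t : ℝ) :
    IsLeast {r : ℝ | ∃ s : ℝ, Complex.exp (2 * Real.pi * Complex.I * s) =
      Complex.exp (2 * Real.pi * Complex.I * t) ∧ r = |s|} ‖(t : T)‖ := by
  have hn : ∀ x : ℝ, ‖(x : T)‖ = |x - round x| := by
    intro x
    have := AddCircle.norm_eq (1 : ℝ) (x := x)
    simpa using this
  constructor
  · refine ⟨t - round t, ?_, hn t⟩
    rw [Complex.exp_eq_exp_iff_exists_int]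
    refine ⟨-round t, ?_⟩
    push_cast
    ring
  · rintro _ ⟨s, hs, rfl⟩
    rw [Complex.exp_eq_exp_iff_exists_int] at hs
    obtain ⟨n, hn'⟩ := hs
    have hpi : (2 * (Real.pi : ℂ) * Complex.I) ≠ 0 := Complex.two_pi_I_ne_zero
    have h1 : (s : ℂ) = t + n := by
      have h2 : (2 * (Real.pi : ℂ) * Complex.I) * s = (2 * (Real.pi : ℂ) * Complex.I) * (t + n) := by
        rw [hn']; ring
      exact mul_left_cancel₀ hpi h2
    have h3 : s = t + n := by exact_mod_cast h1
    have h4 : (s : T) = (t : T) := by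
      rw [h3]
      have h5 : ((n : ℝ) : T) = 0 := by
        rw [AddCircle.coe_eq_zero_iff]
        exact ⟨n, by simp⟩
      have h6 : ((t + n : ℝ) : T) = (t : T) + ((n : ℝ) : T) := rfl
      rw [h6, h5, add_zero]
    rw [← h4, hn s]
    have := round_le s 0
    simpa using this

/-- **The weight of the metric bidual is at least the weight of the metric dual.** The first part
identifies the norm of `ℝ/ℤ` used here with the norm `λ` of the unit circle; the second part is
the inequality, for every abelian group `G` with a norm. -/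
theorem result :
    (∀ t : ℝ, IsLeast {r : ℝ | ∃ s : ℝ, Complex.exp (2 * Real.pi * Complex.I * s) =
      Complex.exp (2 * Real.pi * Complex.I * t) ∧ r = |s|} ‖(t : T)‖) ∧
    ∀ (G : Type u) [NormedAddCommGroup G], weight (Dual G) ≤ weight (Dual (Dual G)) := by
  refine ⟨norm_is_lambda, ?_⟩
  intro G _
  apply le_csInf
  · exact ⟨_, {U | IsOpen U}, TopologicalSpace.isTopologicalBasis_opens, rfl⟩
  · rintro c ⟨B, hB, rfl⟩
    have : ∃ B' : Set (Set (Dual G)), TopologicalSpace.IsTopologicalBasis B' ∧ #B' ≤ #B := by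
      by_cases hfin : B.Finite
      · exact main_finite B hB hfin
      · exact main_infinite B hB (Cardinal.infinite_iff.1 (Set.infinite_coe_iff.2 hfin))
    obtain ⟨B', hB', hle⟩ := this
    have hmem : #B' ∈ {c : Cardinal.{u} | ∃ B : Set (Set (Dual G)),
        TopologicalSpace.IsTopologicalBasis B ∧ #B = c} := ⟨B', hB', rfl⟩
    exact (csInf_le' hmem).trans hle

end Pool.Agent.Results.MP_e4445d_al.BidualWeight
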